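import Pool.Agent.K1H27.PL.Stm2
import Pool.Agent.K1H45.PL.Ker
import Pool.Agent.K1H59.PL.Mul

/-! Piece PL-LD (S_LD): the local determinant of `H z = α_z K β_z` (helper65 for helper27). -/

set_option autoImplicit false

namespace Pool.Agent.K1H65.PL

open MeasureTheory Set Metric Filter Topology Pool.Agent.K1H27.PL Pool.Agent.K1H45.PL
open Pool.Agent.K1H2.VM (real_conj opNorm_le isInt_sub isInt_unique mx_tendsto ht_sub)
open K1H48.VM (exMul im_mul im_sub im_unique im_norm_le im_congr im_const ind ind_meas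
  ind_of_mem ind_of_not ind_le)
open scoped ENNReal NNReal
open Pool.Agent.K1H27.VM (HasHyp IsInt IsMul HT)

/-- `aa` made continuous -/
noncomputable def ma (P η : ℝ) (w : ℂ) : ℂ := (((max ‖w‖ η) ^ (-(1 / P)) : ℝ) : ℂ)

/-- `bb` made continuous -/
noncomputable def mb (P η : ℝ) (w : ℂ) : ℂ :=
  (((max ‖w‖ η) ^ (1 / P - 2) : ℝ) : ℂ) * (starRingEnd ℂ) w

theorem ma_cont {P η : ℝ} (hη : 0 < η) : Continuous (ma P η) := by
  unfold ma
  refine Complex.continuous_ofReal.comp ?_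
  refine (continuous_norm.max continuous_const).rpow_const fun w => Or.inl ?_
  exact (lt_of_lt_of_le hη (le_max_right _ _)).ne'

theorem mb_cont {P η : ℝ} (hη : 0 < η) : Continuous (mb P η) := by
  unfold mb
  refine (Complex.continuous_ofReal.comp ?_).mul Complex.continuous_conj
  refine (continuous_norm.max continuous_const).rpow_const fun w => Or.inl ?_
  exact (lt_of_lt_of_le hη (le_max_right _ _)).ne'

theorem ma_eq {P η : ℝ} {w : ℂ} (h : η ≤ ‖w‖) : ma P η w = aa P w := by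
  unfold ma aa
  rw [max_eq_left h]

theorem mb_eq {P η : ℝ} (hη : 0 < η) {w : ℂ} (h : η ≤ ‖w‖) : mb P η w = bb P w := by
  have hx : 0 < ‖w‖ := lt_of_lt_of_le hη h
  have hw : w ≠ 0 := norm_pos_iff.1 hx
  unfold mb bb
  rw [max_eq_left h, Real.rpow_sub hx, ← Pool.Agent.K1H59.PL.sq_inv]
  have h2 : ‖w‖ ^ (2 : ℝ) = ‖w‖ ^ 2 := by
    rw [← Real.rpow_natCast]; norm_num
  rw [h2]
  have h3 : (((‖w‖ ^ 2 : ℝ)) : ℂ) ≠ 0 := by
    exact_mod_cast (by positivity : (‖w‖ ^ 2 : ℝ) ≠ 0)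
  rw [Complex.ofReal_div]
  field_simp

theorem abn {P : ℝ} {w : ℂ} (hw : w ≠ 0) : aa P w * w * bb P w = 1 := by
  have hx : 0 < ‖w‖ := norm_pos_iff.2 hw
  unfold aa bb
  have h1 : (((‖w‖ ^ (-(1 / P)) : ℝ)) : ℂ) * (((‖w‖ ^ (1 / P) : ℝ)) : ℂ) = 1 := by
    rw [← Complex.ofReal_mul, ← Real.rpow_add hx]
    simp
  calc (((‖w‖ ^ (-(1 / P)) : ℝ)) : ℂ) * w * ((((‖w‖ ^ (1 / P) : ℝ)) : ℂ) * w⁻¹)
      = ((((‖w‖ ^ (-(1 / P)) : ℝ)) : ℂ) * (((‖w‖ ^ (1 / P) : ℝ)) : ℂ)) * (w * w⁻¹) := by ring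
    _ = 1 := by rw [h1, mul_inv_cancel₀ hw, one_mul]

section

variable {S : Type} [MeasurableSpace S] {μ : Measure S} [SigmaFinite μ] {p q : ℝ≥0∞}
  [Fact (1 ≤ p)] [Fact (1 ≤ q)]

omit [SigmaFinite μ] in
theorem im_ae {f g : S → ℂ} {M : Lp ℂ p μ →L[ℂ] Lp ℂ p μ} (hM : IsMul f M)
    (h : ∀ᵐ s ∂μ, f s = g s) : IsMul g M := by
  intro x
  filter_upwards [hM x, h] with s h1 h2
  rw [h1, h2]

omit [SigmaFinite μ] in
theorem im_one_of {f : S → ℂ} {M : Lp ℂ p μ →L[ℂ] Lp ℂ p μ} (hM : IsMul f M)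
    (h : ∀ᵐ s ∂μ, f s = 1) : M = 1 := by
  have h1 := im_const (μ := μ) (p := p) (S := S) 1
  rw [one_smul] at h1
  exact im_unique (im_ae hM h) h1

omit [SigmaFinite μ] in
theorem isInt_ae {k l : S → S → ℂ} (h : ∀ᵐ s ∂μ, ∀ᵐ t ∂μ, k s t = l s t)
    {V : Lp ℂ p μ →L[ℂ] Lp ℂ p μ} (hV : IsInt k V) : IsInt l V := by
  intro g
  filter_upwards [hV g, h] with s h1 h2
  rw [h1]
  refine integral_congr_ae ?_
  filter_upwards [h2] with t h3
  rw [h3]

/-- the cut-off of an integral operator away from a point -/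
theorem cut (hpq : p.HolderConjugate q) (hp : p ≠ ∞) (hq : q ≠ ∞) {φ : S → ℂ} (hφ : Measurable φ)
    {k : S → S → ℂ} {z₀ : ℂ} {H : Lp ℂ p μ →L[ℂ] Lp ℂ p μ} (hk : Measurable (Function.uncurry k))
    (hfin : HT μ p q k ≠ ∞) (hH : IsInt k H) (h0 : ∀ s t, φ s = z₀ ∨ φ t = z₀ → k s t = 0)
    {e : ℝ} (he : 0 < e) : ∃ δ : ℝ, 0 < δ ∧ ∀ Q : Lp ℂ p μ →L[ℂ] Lp ℂ p μ,
      IsMul (ind {s | δ ≤ ‖z₀ - φ s‖}) Q → ‖H - Q * H * Q‖ < e := by
  have hc := real_conj hpq hp hq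
  let E : ℕ → Set S := fun n => {s | 1 / ((n : ℝ) + 1) ≤ ‖z₀ - φ s‖}
  have hE : ∀ n, MeasurableSet (E n) := fun n =>
    measurableSet_le measurable_const (measurable_const.sub hφ).norm
  have hlm : ∀ n, Measurable (Function.uncurry fun s t => ind (E n) s * k s t * ind (E n) t) :=
    fun n => (((ind_meas (hE n)).comp measurable_fst).mul hk).mul
      ((ind_meas (hE n)).comp measurable_snd)
  have hle : ∀ n s t, ‖k s t - ind (E n) s * k s t * ind (E n) t‖ₑ ≤ ‖k s t‖ₑ := by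
    intro n s t
    by_cases hs : s ∈ E n
    · by_cases ht : t ∈ E n
      · rw [ind_of_mem hs, ind_of_mem ht, one_mul, mul_one, sub_self, enorm_zero]
        exact zero_le
      · rw [ind_of_not ht, mul_zero, sub_zero]
    · rw [ind_of_not hs, zero_mul, zero_mul, sub_zero]
  have hle2 : ∀ n, HT μ p q (fun s t => ind (E n) s * k s t * ind (E n) t) ≠ ∞ := by
    intro n
    refine ne_top_of_le_ne_top hfin ?_
    refine Pool.Agent.K1H2.VM.mx_mono (μ := μ) hc.pos hc.symm.pos (F := fun s t =>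
      ‖ind (E n) s * k s t * ind (E n) t‖ₑ) (G := fun s t => ‖k s t‖ₑ) fun s t => ?_
    by_cases hs : s ∈ E n
    · by_cases ht : t ∈ E n
      · rw [ind_of_mem hs, ind_of_mem ht, one_mul, mul_one]
      · rw [ind_of_not ht, mul_zero, enorm_zero]
        exact zero_le
    · rw [ind_of_not hs, zero_mul, zero_mul, enorm_zero]
      exact zero_le
  have ht : Tendsto (fun n => HT μ p q (fun s t => k s t - ind (E n) s * k s t * ind (E n) t))
      atTop (𝓝 0) := mx_tendsto (μ := μ) hc.pos hc.symm.pos (fun s t => ‖k s t‖ₑ)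
    (fun n s t => ‖k s t - ind (E n) s * k s t * ind (E n) t‖ₑ) (fun n => (hk.sub (hlm n)).enorm)
    hk.enorm hfin hle (fun s t => by
      have hev : ∀ᶠ n : ℕ in atTop, (0 : ℝ≥0∞) = ‖k s t - ind (E n) s * k s t * ind (E n) t‖ₑ := by
        by_cases hst : φ s = z₀ ∨ φ t = z₀
        · rw [h0 s t hst]
          refine Eventually.of_forall fun n => ?_
          simp
        · push Not at hst
          have hs : 0 < ‖z₀ - φ s‖ := norm_pos_iff.2 (sub_ne_zero.2 (Ne.symm hst.1))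
          have ht : 0 < ‖z₀ - φ t‖ := norm_pos_iff.2 (sub_ne_zero.2 (Ne.symm hst.2))
          have t0 : Tendsto (fun n : ℕ => (1 / ((n : ℝ) + 1))) atTop (𝓝 0) :=
            tendsto_one_div_add_atTop_nhds_zero_nat
          filter_upwards [t0.eventually (gt_mem_nhds hs), t0.eventually (gt_mem_nhds ht)]
            with n h1 h2
          have hs' : s ∈ E n := h1.le
          have ht' : t ∈ E n := h2.le
          rw [ind_of_mem hs', ind_of_mem ht', one_mul, mul_one, sub_self, enorm_zero]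
      exact tendsto_const_nhds.congr' hev)
  have h1 : Tendsto (fun n => ((HT μ p q (fun s t => k s t - ind (E n) s * k s t * ind (E n) t)) ^
      (1 / p.toReal)).toReal) atTop (𝓝 0) := by
    have h2 := (ENNReal.continuous_rpow_const (y := 1 / p.toReal)).tendsto 0 |>.comp ht
    rw [ENNReal.zero_rpow_of_pos (one_div_pos.2 hc.pos)] at h2
    have h3 := (ENNReal.tendsto_toReal ENNReal.zero_ne_top).comp h2
    simpa [Function.comp_def] using h3
  obtain ⟨n, hn⟩ := (h1.eventually (gt_mem_nhds he)).exists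
  refine ⟨1 / ((n : ℝ) + 1), by positivity, fun Q hQ => lt_of_le_of_lt ?_ hn⟩
  refine opNorm_le hc hp (hk.sub (hlm n)) (ht_sub hc.pos hc.symm.pos hk hfin (hle2 n)) ?_
  exact isInt_sub hc hp hk hfin (hlm n) (hle2 n) hH (isInt_mul_right hQ (isInt_mul_left hQ hH))

end

/-- LD -/
theorem t_LD (h : S_LOCD) : S_LD := by
  intro S _ μ _ p q _ _ hpq hp hq φ hφ hM U R γ D k hU hUR hγ hk hW H hH hHc hHF N K hN hK z₀ hz₀
  have hM' := hM
  obtain ⟨M₀, hM₀⟩ := hM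
  have hc := real_conj hpq hp hq
  have hP : 0 < p.toReal := hc.pos
  have hQ : 0 < q.toReal := hc.symm.pos
  have hP1 : 1 < p.toReal := hc.lt
  have hPQ : 0 < p.toReal / q.toReal := div_pos hP hQ
  set P : ℝ := p.toReal with hPdef
  have hMUL := Pool.Agent.K1H59.PL.t_MUL
  have hCTS := Pool.Agent.K1H59.PL.t_CTS
  -- the kernel of `H z₀` has finite norm
  have hkzm : Measurable (Function.uncurry (kz φ P k z₀)) :=
    ((((meas_aa _).comp (measurable_const.sub hφ)).comp measurable_fst).mul hk).mul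
      (((meas_bb _).comp (measurable_const.sub hφ)).comp measurable_snd)
  have hkzf : HT μ p q (kz φ P k z₀) ≠ ∞ := by
    set d : ℝ := max 1 (R + M₀) with hd
    have hd1 : 1 ≤ d := le_max_left _ _
    have hζ : ∀ s, ‖z₀ - φ s‖ ≤ d := by
      intro s
      have h1 := hUR hz₀
      rw [mem_ball_zero_iff] at h1
      calc ‖z₀ - φ s‖ ≤ ‖z₀‖ + ‖φ s‖ := norm_sub_le _ _
        _ ≤ R + M₀ := add_le_add h1.le (hM₀ s)
        _ ≤ d := le_max_right _ _
    have hle := ht_le hc hW hz₀ hz₀ (ENNReal.ofReal_ne_top (r := d ^ (γ - 1)))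
      (ENNReal.ofReal_ne_top (r := d ^ (γ - 1))) (fun s => W1 hP hd1 hγ (hζ s))
      (fun s => W2 hc hd1 hγ (hζ s))
    refine ne_top_of_le_ne_top ?_ hle
    exact ENNReal.mul_ne_top (ENNReal.mul_ne_top ENNReal.ofReal_ne_top
      (ENNReal.rpow_ne_top_of_nonneg hPQ.le ENNReal.ofReal_ne_top)) (by simp)
  obtain ⟨δ, hδ, hcut⟩ := cut hpq hp hq hφ hkzm hkzf (hH z₀ hz₀) (z₀ := z₀) (fun s t hst => by
    unfold kz
    rcases hst with hst | hst
    · rw [hst, sub_self, aa_zero hP, zero_mul, zero_mul]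
    · rw [hst, sub_self, bb_zero, mul_zero]) (e := 1 / 2) (by norm_num)
  let E : Set S := {s | δ ≤ ‖z₀ - φ s‖}
  have hE : MeasurableSet E := measurableSet_le measurable_const (measurable_const.sub hφ).norm
  obtain ⟨Q, hQm⟩ := exMul (μ := μ) (p := p) (ind_meas hE) (ind_le E)
  have hQ1 : ‖Q‖ ≤ 1 := im_norm_le hQm zero_le_one (ind_le E)
  obtain ⟨F, hFf, hFn⟩ := hHF z₀ hz₀ (1 / 2) (by norm_num)
  have hn1 : ‖H z₀ - Q * F * Q‖ < 1 := by
    have h1 : H z₀ - Q * F * Q = (H z₀ - Q * H z₀ * Q) + Q * (H z₀ - F) * Q := by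
      rw [mul_sub, sub_mul]
      abel
    rw [h1]
    have h2 : ‖Q * (H z₀ - F) * Q‖ ≤ ‖H z₀ - F‖ := by
      calc ‖Q * (H z₀ - F) * Q‖ ≤ ‖Q * (H z₀ - F)‖ * ‖Q‖ := norm_mul_le _ _
        _ ≤ (‖Q‖ * ‖H z₀ - F‖) * ‖Q‖ := mul_le_mul_of_nonneg_right (norm_mul_le _ _) (norm_nonneg _)
        _ ≤ (1 * ‖H z₀ - F‖) * 1 :=
            mul_le_mul (mul_le_mul_of_nonneg_right hQ1 (norm_nonneg _)) hQ1 (norm_nonneg _)
              (by positivity)
        _ = ‖H z₀ - F‖ := by ring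
    have h3 := hcut Q hQm
    calc ‖(H z₀ - Q * H z₀ * Q) + Q * (H z₀ - F) * Q‖
        ≤ ‖H z₀ - Q * H z₀ * Q‖ + ‖Q * (H z₀ - F) * Q‖ := norm_add_le _ _
      _ < 1 / 2 + 1 / 2 := add_lt_add_of_lt_of_le h3 (h2.trans hFn.le)
      _ = 1 := by norm_num
  -- the multiplications
  have hδ2 : 0 < δ / 2 := by linarith
  obtain ⟨Ma, hMac, hMam⟩ := hMUL S μ p φ hφ hM' (ma P (δ / 2)) (ma_cont hδ2)
  obtain ⟨Mb, hMbc, hMbm⟩ := hMUL S μ p φ hφ hM' (mb P (δ / 2)) (mb_cont hδ2)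
  obtain ⟨Mn, -, hMnm⟩ := hMUL S μ p φ hφ hM' (nn P) ((hCTS P hP1).1 1 one_pos).2.2.2
  obtain ⟨Mw, -, hMwm⟩ := hMUL S μ p φ hφ hM' (fun w => w * ma P δ w)
    (continuous_id.mul (ma_cont hδ))
  set A : Lp ℂ p μ →L[ℂ] Lp ℂ p μ := Q * Mn z₀ with hA
  set B : Lp ℂ p μ →L[ℂ] Lp ℂ p μ := Q * Mw z₀ with hB
  have hAm : IsMul (fun s => ind E s * nn P (z₀ - φ s)) A := im_mul hQm (hMnm z₀)
  have hBm : IsMul (fun s => ind E s * ((z₀ - φ s) * ma P δ (z₀ - φ s))) B :=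
    im_mul hQm (hMwm z₀)
  have haz₀ : Ma z₀ * A = Q := by
    refine im_unique (im_congr (im_mul (hMam z₀) hAm) fun s => ?_) hQm
    by_cases hs : s ∈ E
    · have h1 : z₀ - φ s ≠ 0 := norm_pos_iff.1 (lt_of_lt_of_le hδ hs)
      rw [ind_of_mem hs, one_mul, ma_eq (le_trans (by linarith) (show δ ≤ ‖z₀ - φ s‖ from hs)),
        mul_comm, nn_aa hP h1]
    · rw [ind_of_not hs, zero_mul, mul_zero]
  have hbz₀ : B * Mb z₀ = Q := by
    refine im_unique (im_congr (im_mul hBm (hMbm z₀)) fun s => ?_) hQm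
    by_cases hs : s ∈ E
    · have h1 : z₀ - φ s ≠ 0 := norm_pos_iff.1 (lt_of_lt_of_le hδ hs)
      rw [ind_of_mem hs, one_mul, ma_eq (show δ ≤ ‖z₀ - φ s‖ from hs),
        mb_eq hδ2 (le_trans (by linarith) (show δ ≤ ‖z₀ - φ s‖ from hs)),
        mul_comm (z₀ - φ s), abn h1]
    · rw [ind_of_not hs, zero_mul, zero_mul]
  have hopen : IsOpen (U ∩ ball z₀ (δ / 2)) := hU.inter isOpen_ball
  obtain ⟨W, d, hW1, hW2, hW3, hW4, hW5, hW6⟩ := h (Lp ℂ p μ) (U ∩ ball z₀ (δ / 2)) (essR μ φ) z₀ H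
    (fun z => Ma z * A) (fun z => B * Mb z) (N + K - A * F * B) A F B hopen
    ⟨hz₀, mem_ball_self hδ2⟩ (hHc.mono inter_subset_left) (hMac.mul continuous_const).continuousOn
    (continuous_const.mul hMbc).continuousOn hFf (by
      rw [haz₀, hbz₀]
      exact hn1) (by
    rintro z ⟨hzU, hzb⟩ hzE
    -- the distance to the range of `φ`
    obtain ⟨ε, hε, hε0⟩ : ∃ ε : ℝ, 0 < ε ∧ μ {s | ‖φ s - z‖ < ε} = 0 := by
      by_contra hcon
      push Not at hcon
      exact hzE fun ε hε => pos_iff_ne_zero.2 (hcon ε hε)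
    have hae : ∀ᵐ s ∂μ, ε ≤ ‖z - φ s‖ := by
      rw [ae_iff]
      refine measure_mono_null (fun s hs => ?_) hε0
      simp only [Set.mem_ofPred_eq, not_le] at hs ⊢
      rwa [norm_sub_rev]
    obtain ⟨Na, -, hNa⟩ := hMUL S μ p φ hφ hM' (ma P ε) (ma_cont hε)
    obtain ⟨Nb, -, hNb⟩ := hMUL S μ p φ hφ hM' (mb P ε) (mb_cont hε)
    obtain ⟨Nw, -, hNw⟩ := hMUL S μ p φ hφ hM' (fun w => w * ma P ε w)
      (continuous_id.mul (ma_cont hε))
    have hne : ∀ s, ε ≤ ‖z - φ s‖ → z - φ s ≠ 0 := fun s hs =>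
      norm_pos_iff.1 (lt_of_lt_of_le hε hs)
    have hfar : ∀ s ∈ E, δ / 2 ≤ ‖z - φ s‖ := by
      intro s hs
      have h1 : δ ≤ ‖z₀ - φ s‖ := hs
      have h2 : ‖z - z₀‖ < δ / 2 := by
        rw [← dist_eq_norm]
        exact hzb
      have h3 : ‖z₀ - φ s‖ ≤ ‖z - φ s‖ + ‖z - z₀‖ := by
        have : z₀ - φ s = (z - φ s) - (z - z₀) := by ring
        rw [this]
        exact norm_sub_le _ _
      linarith
    have hα : Na z * Mn z = 1 := by
      refine im_one_of (im_mul (hNa z) (hMnm z)) ?_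
      filter_upwards [hae] with s hs
      rw [ma_eq hs, mul_comm, nn_aa hP (hne s hs)]
    have hα' : Mn z * Na z = 1 := by
      refine im_one_of (im_mul (hMnm z) (hNa z)) ?_
      filter_upwards [hae] with s hs
      rw [ma_eq hs, nn_aa hP (hne s hs)]
    have hβ : Nb z * Nw z = 1 := by
      refine im_one_of (im_mul (hNb z) (hNw z)) ?_
      filter_upwards [hae] with s hs
      rw [ma_eq hs, mb_eq hε hs, ← abn (P := P) (hne s hs)]
      ring
    have hβ' : Nw z * Nb z = 1 := by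
      refine im_one_of (im_mul (hNw z) (hNb z)) ?_
      filter_upwards [hae] with s hs
      rw [ma_eq hs, mb_eq hε hs, ← abn (P := P) (hne s hs)]
      ring
    have ha : Ma z * A = Na z * A := by
      refine im_unique (im_ae (im_mul (hMam z) hAm) ?_) (im_mul (hNa z) hAm)
      filter_upwards [hae] with s hs
      by_cases hsE : s ∈ E
      · rw [ma_eq hs, ma_eq (hfar s hsE)]
      · rw [ind_of_not hsE, zero_mul, mul_zero, mul_zero]
    have hb : B * Mb z = B * Nb z := by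
      refine im_unique (im_ae (im_mul hBm (hMbm z)) ?_) (im_mul hBm (hNb z))
      filter_upwards [hae] with s hs
      by_cases hsE : s ∈ E
      · rw [mb_eq hε hs, mb_eq hδ2 (hfar s hsE)]
      · rw [ind_of_not hsE, zero_mul, zero_mul, zero_mul]
    refine ⟨Na z, Nb z, ⟨⟨Na z, Mn z, hα, hα'⟩, rfl⟩, ⟨⟨Nb z, Nw z, hβ, hβ'⟩, rfl⟩, ha, hb, ?_⟩
    have h1 : Na z * (z • (1 : Lp ℂ p μ →L[ℂ] Lp ℂ p μ) - N) * Nb z = 1 := by
      refine im_one_of (im_mul (im_mul (hNa z) (im_sub (im_const z) hN)) (hNb z)) ?_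
      filter_upwards [hae] with s hs
      rw [ma_eq hs, mb_eq hε hs, abn (hne s hs)]
    have h2 : Na z * K * Nb z = H z := by
      refine isInt_unique (isInt_ae ?_ (isInt_mul_right (hNb z) (isInt_mul_left (hNa z) hK)))
        (hH z hzU)
      filter_upwards [hae] with s hs
      filter_upwards [hae] with t ht
      rw [ma_eq hs, mb_eq hε ht]
      rfl
    have h3 : Na z * (z • (1 : Lp ℂ p μ →L[ℂ] Lp ℂ p μ) - (N + K - A * F * B)) * Nb z =
        Na z * (z • (1 : Lp ℂ p μ →L[ℂ] Lp ℂ p μ) - N) * Nb z - Na z * K * Nb z +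
          (Na z * A) * F * (B * Nb z) := by
      simp only [mul_sub, sub_mul, mul_add, add_mul, mul_assoc]
      abel
    rw [h3, h1, h2, ha, hb]
    abel)
  exact ⟨W, d, hW1, hW2, hW3.trans inter_subset_left, hW4, hW5, hW6⟩

end Pool.Agent.K1H65.PL
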